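import Mathlib
import Pool.Agent.Q35.LO.Stm
import Pool.Agent.Q298.SM.Bas
import Pool.Agent.Q144.MM.Db
import Pool.Agent.Q285.MM.Lw

/-!
Project LO of helper35: common lemmas for the jobs LO-REG, LO-SZ and LO-SC
-/

set_option autoImplicit false

namespace Pool.Agent.Q162.LO

open Finset Function MvPolynomial
open Pool.Agent.Q35.MM (bx dg Pts S1 S1_finite mem_bx)
open Pool.Agent.Q35.SM (Cof Vs Var Pol ev pv MH)
open Pool.Agent.Q35.LO (lf mnr VV)
open Pool.Agent.Q298.SM (ev_lin ev_map pv_map upd_map upd_single)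

/-- the lemma of Schwartz and Zippel for any finite set of variables -/
theorem sz_gen {σ : Type} [Fintype σ] [DecidableEq σ] {R : Type} [CommRing R] [IsDomain R]
    [DecidableEq R] (p : MvPolynomial σ R) (hp : p ≠ 0) (S : σ → Finset R) (m : ℕ)
    (hm : ∀ i, m ≤ (S i).card) :
    ((Fintype.piFinset S).filter fun x => eval x p = 0).card * m ≤
      p.totalDegree * ∏ i, (S i).card := by
  rcases Nat.eq_zero_or_pos m with h0 | h0
  · subst h0
    simp
  set e := Fintype.equivFin σ with he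
  have hp' : rename e p ≠ 0 := fun h => hp ((rename_injective e e.injective) (by rw [h, map_zero]))
  have h1 := schwartz_zippel_sup_sum hp' (fun i => S (e.symm i))
  have hpos : ∀ i, 0 < (S i).card := fun i => lt_of_lt_of_le h0 (hm i)
  have h2 : ((rename e p).support.sup fun s => ∑ i, ((s i : ℚ≥0) / ((S (e.symm i)).card : ℚ≥0))) ≤
      (p.totalDegree : ℚ≥0) / m := by
    refine Finset.sup_le fun s hs => ?_
    calc ∑ i, ((s i : ℚ≥0) / ((S (e.symm i)).card : ℚ≥0)) ≤ ∑ i, ((s i : ℚ≥0) / (m : ℚ≥0)) := by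
          refine sum_le_sum fun i _ => ?_
          have h3 : (0 : ℚ≥0) < m := by exact_mod_cast h0
          have h4 : (m : ℚ≥0) ≤ ((S (e.symm i)).card : ℚ≥0) := by exact_mod_cast hm _
          gcongr
      _ = ((∑ i, s i : ℕ) : ℚ≥0) / m := by
          rw [← sum_div]
          push_cast
          rfl
      _ ≤ (p.totalDegree : ℚ≥0) / m := by
          have h3 := le_totalDegree hs
          rw [Finsupp.sum_fintype _ _ (fun _ => rfl)] at h3
          have h4 : (∑ i, s i) ≤ p.totalDegree := h3.trans (totalDegree_rename_le _ _)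
          have h5 : ((∑ i, s i : ℕ) : ℚ≥0) ≤ (p.totalDegree : ℚ≥0) := by exact_mod_cast h4
          gcongr
  have h3 := h1.trans h2
  have hP : (0 : ℚ≥0) < ∏ i, ((S (e.symm i)).card : ℚ≥0) :=
    prod_pos fun i _ => by exact_mod_cast hpos _
  have hm0 : (0 : ℚ≥0) < m := by exact_mod_cast h0
  rw [div_le_div_iff₀ hP hm0] at h3
  have h4 : ∏ i, ((S (e.symm i)).card : ℚ≥0) = ((∏ i, (S i).card : ℕ) : ℚ≥0) := by
    rw [Equiv.prod_comp e.symm (fun i => ((S i).card : ℚ≥0))]
    push_cast
    rfl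
  rw [h4] at h3
  have h5 : ((Fintype.piFinset S).filter fun x => eval x p = 0).card ≤
      ((Fintype.piFinset fun i => S (e.symm i)).filter fun x => eval x (rename e p) = 0).card := by
    refine card_le_card_of_injOn (fun x => fun i => x (e.symm i)) ?_ ?_
    · intro x hx
      rw [mem_coe, mem_filter, Fintype.mem_piFinset] at hx
      rw [mem_coe, mem_filter, Fintype.mem_piFinset]
      refine ⟨fun i => hx.1 _, ?_⟩
      rw [eval_rename]
      have h6 : (fun i => x (e.symm i)) ∘ e = x := by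
        funext i
        simp
      rw [h6]
      exact hx.2
    · intro x _ y _ h
      funext i
      have h6 := congrFun h (e i)
      simpa using h6
  have h6 : (((Fintype.piFinset fun i => S (e.symm i)).filter
      fun x => eval x (rename e p) = 0).card * m : ℕ) ≤ p.totalDegree * ∏ i, (S i).card := by
    exact_mod_cast h3
  exact (Nat.mul_le_mul_right m h5).trans h6

/-- substitution of polynomials of degree at most `1` -/
theorem totalDegree_subst {σ τ R : Type} [CommRing R] (f : σ → MvPolynomial τ R)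
    (hf : ∀ i, (f i).totalDegree ≤ 1) (p : MvPolynomial σ R) :
    (aeval f p).totalDegree ≤ p.totalDegree := by
  classical
  rw [aeval_def, eval₂_eq]
  refine totalDegree_finsetSum_le fun s hs => ?_
  refine (totalDegree_mul _ _).trans ?_
  have h1 : ((algebraMap R (MvPolynomial τ R)) (coeff s p)).totalDegree = 0 := totalDegree_C _
  rw [h1, zero_add]
  refine (totalDegree_finsetProd _ _).trans ?_
  refine le_trans ?_ (le_totalDegree hs)
  refine sum_le_sum fun i _ => ?_
  refine (totalDegree_pow _ _).trans ?_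
  calc s i * (f i).totalDegree ≤ s i * 1 := Nat.mul_le_mul_left _ (hf i)
    _ = s i := mul_one _

section

variable {K : Type} [Field K] {ι : Type} [Fintype ι] [DecidableEq ι] {n : ι → ℕ} {k : ℕ}
variable {A : Type} [CommRing A] [Algebra K A]

/-- the matrix of the linear forms -/
def Lm (c : Fin k → Cof K n) (x : Vs A n) (j : ι) : Matrix (Fin k) (Fin (n j + 1)) A :=
  Matrix.of fun t a => lf c x j t a

/-- the inclusion of the coordinates `J` -/
def Pm (A : Type) [CommRing A] {N : ℕ} (J : Fin k → Fin N) : Matrix (Fin N) (Fin k) A :=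
  Matrix.of fun a t => if J t = a then 1 else 0

theorem Lm_mul_Pm (c : Fin k → Cof K n) (x : Vs A n) (j : ι) (J : Fin k → Fin (n j + 1)) :
    Lm c x j * Pm A J = Matrix.of fun t t' => lf c x j t (J t') := by
  ext t t'
  rw [Matrix.mul_apply]
  simp [Lm, Pm]

theorem det_Lm (c : Fin k → Cof K n) (x : Vs A n) (j : ι) (J : Fin k → Fin (n j + 1)) :
    (Lm c x j * Pm A J).det = mnr c x j J := by
  rw [Lm_mul_Pm]
  rfl

/-- the matrix of Cramer -/
def Cm (c : Fin k → Cof K n) (x : Vs A n) (j : ι) (J : Fin k → Fin (n j + 1)) :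
    Matrix (Fin (n j + 1)) (Fin (n j + 1)) A :=
  mnr c x j J • 1 - Pm A J * ((Lm c x j * Pm A J).adjugate * Lm c x j)

theorem Lm_mul_Cm (c : Fin k → Cof K n) (x : Vs A n) (j : ι) (J : Fin k → Fin (n j + 1)) :
    Lm c x j * Cm c x j J = 0 := by
  unfold Cm
  rw [Matrix.mul_sub, Matrix.mul_smul, Matrix.mul_one, ← Matrix.mul_assoc, ← Matrix.mul_assoc,
    Matrix.mul_adjugate, det_Lm, Matrix.smul_mul, Matrix.one_mul, sub_self]

theorem Cm_mul_Pm (c : Fin k → Cof K n) (x : Vs A n) (j : ι) (J : Fin k → Fin (n j + 1)) :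
    Cm c x j J * Pm A J = 0 := by
  unfold Cm
  rw [Matrix.sub_mul, Matrix.smul_mul, Matrix.one_mul, Matrix.mul_assoc, Matrix.mul_assoc,
    Matrix.adjugate_mul, det_Lm, Matrix.mul_smul, Matrix.mul_one, sub_self]

theorem Cm_mulVec (c : Fin k → Cof K n) (x : Vs A n) (j : ι) (J : Fin k → Fin (n j + 1))
    (y : Fin (n j + 1) → A) (hy : (Lm c x j).mulVec y = 0) :
    (Cm c x j J).mulVec y = mnr c x j J • y := by
  unfold Cm
  rw [Matrix.sub_mulVec, Matrix.smul_mulVec, Matrix.one_mulVec, ← Matrix.mulVec_mulVec,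
    ← Matrix.mulVec_mulVec, hy, Matrix.mulVec_zero, Matrix.mulVec_zero, sub_zero]

theorem lf_update (c : Fin k → Cof K n) (x : Vs A n) (j : ι) (z : Fin (n j + 1) → A) :
    lf c (update x j z) j = lf c x j := by
  funext t a
  unfold lf
  rw [update_idem]

theorem mnr_update (c : Fin k → Cof K n) (x : Vs A n) (j : ι) (z : Fin (n j + 1) → A)
    (J : Fin k → Fin (n j + 1)) : mnr c (update x j z) j J = mnr c x j J := by
  unfold mnr
  rw [lf_update]

theorem Lm_update (c : Fin k → Cof K n) (x : Vs A n) (j : ι) (z : Fin (n j + 1) → A) :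
    Lm c (update x j z) j = Lm c x j := by
  unfold Lm
  rw [lf_update]

theorem Cm_update (c : Fin k → Cof K n) (x : Vs A n) (j : ι) (z : Fin (n j + 1) → A)
    (J : Fin k → Fin (n j + 1)) : Cm c (update x j z) j J = Cm c x j J := by
  unfold Cm
  rw [Lm_update, mnr_update]

theorem congr_off {x x' : Vs A n} {j : ι} (h : ∀ l, l ≠ j → x l = x' l) :
    x' = update x j (x' j) := by
  funext l
  by_cases hl : l = j
  · subst hl
    simp
  · rw [update_of_ne hl, h l hl]

theorem Cm_congr (c : Fin k → Cof K n) {x x' : Vs A n} {j : ι} (J : Fin k → Fin (n j + 1))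
    (h : ∀ l, l ≠ j → x l = x' l) : Cm c x' j J = Cm c x j J := by
  rw [congr_off h, Cm_update]

theorem mnr_congr (c : Fin k → Cof K n) {x x' : Vs A n} {j : ι} (J : Fin k → Fin (n j + 1))
    (h : ∀ l, l ≠ j → x l = x' l) : mnr c x' j J = mnr c x j J := by
  rw [congr_off h, mnr_update]

variable {B : Type} [CommRing B] [Algebra K B]

theorem lf_map (φ : A →ₐ[K] B) (c : Fin k → Cof K n) (x : Vs A n) (j : ι) (t : Fin k)
    (a : Fin (n j + 1)) : lf c (fun l b => φ (x l b)) j t a = φ (lf c x j t a) := by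
  unfold lf
  rw [← ev_map, upd_single]

theorem mnr_map (φ : A →ₐ[K] B) (c : Fin k → Cof K n) (x : Vs A n) (j : ι)
    (J : Fin k → Fin (n j + 1)) : mnr c (fun l b => φ (x l b)) j J = φ (mnr c x j J) := by
  unfold mnr
  have h := RingHom.map_det (φ : A →+* B) (Matrix.of fun t t' => lf c x j t (J t'))
  rw [RingHom.coe_coe] at h
  rw [h]
  congr 1
  ext t t'
  simp [lf_map]

theorem Cm_map (φ : A →ₐ[K] B) (c : Fin k → Cof K n) (x : Vs A n) (j : ι)
    (J : Fin k → Fin (n j + 1)) : Cm c (fun l b => φ (x l b)) j J = (Cm c x j J).map φ := by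
  have hL : Lm c (fun l b => φ (x l b)) j = (Lm c x j).map φ := by
    ext t a
    simp [Lm, lf_map]
  have hP : Pm B J = (Pm A J).map φ := by
    ext a t
    simp only [Pm, Matrix.of_apply, Matrix.map_apply]
    split_ifs <;> simp
  have hLP : Lm c (fun l b => φ (x l b)) j * Pm B J = (Lm c x j * Pm A J).map φ := by
    rw [hL, hP, Matrix.map_mul]
  have hadj : (Lm c (fun l b => φ (x l b)) j * Pm B J).adjugate =
      ((Lm c x j * Pm A J).adjugate).map φ := by
    rw [hLP]
    exact (RingHom.map_adjugate (φ : A →+* B) (Lm c x j * Pm A J)).symm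
  unfold Cm
  rw [hadj, hL, hP, mnr_map, ← Matrix.map_mul, ← Matrix.map_mul]
  ext a b
  simp only [Matrix.sub_apply, Matrix.smul_apply, Matrix.map_apply, smul_eq_mul, map_sub, map_mul]
  congr 2
  by_cases h : a = b
  · subst h
    simp
  · simp [Matrix.one_apply_ne h]

theorem mem_VV (c : Fin k → Cof K n) (x : Vs K n) (j : ι) (y : Fin (n j + 1) → K) :
    y ∈ VV c x j ↔ (Lm c x j).mulVec y = 0 := by
  constructor
  · intro h
    funext t
    exact h t
  · intro h t
    exact congrFun h t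

theorem ev_eq (c : Fin k → Cof K n) (x : Vs A n) (j : ι) (t : Fin k) (y : Fin (n j + 1) → A) :
    ev A (c t) (update x j y) = (Lm c x j).mulVec y t := by
  rw [ev_lin]
  show _ = ∑ a, lf c x j t a * y a
  refine sum_congr rfl fun a _ => ?_
  rw [mul_comm]
  rfl

/-- the scaling of the linear forms -/
theorem lf_smul (c : Fin k → Cof K n) (x : Vs A n) (j : ι) (t : Fin k) (a : Fin (n j + 1))
    (s : ι → A) : lf c (fun l b => s l * x l b) j t a =
      (∏ l ∈ univ.erase j, s l) * lf c x j t a := by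
  unfold lf ev
  rw [mul_sum]
  refine sum_congr rfl fun b _ => ?_
  rw [← mul_prod_erase univ _ (mem_univ j), ← mul_prod_erase univ
    (fun i => (update x j (Pi.single a 1)) i (b i)) (mem_univ j)]
  rw [update_self, update_self]
  have h1 : ∏ l ∈ univ.erase j, update (fun l b => s l * x l b) j (Pi.single a 1) l (b l) =
      (∏ l ∈ univ.erase j, s l) * ∏ l ∈ univ.erase j, update x j (Pi.single a 1) l (b l) := by
    rw [← prod_mul_distrib]
    refine prod_congr rfl fun l hl => ?_
    rw [update_of_ne (ne_of_mem_erase hl), update_of_ne (ne_of_mem_erase hl)]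
  rw [h1]
  ring

theorem mnr_smul (c : Fin k → Cof K n) (x : Vs A n) (j : ι) (J : Fin k → Fin (n j + 1))
    (s : ι → A) : mnr c (fun l b => s l * x l b) j J =
      (∏ l ∈ univ.erase j, s l) ^ k * mnr c x j J := by
  unfold mnr
  have h : (Matrix.of fun t t' => lf c (fun l b => s l * x l b) j t (J t')) =
      (∏ l ∈ univ.erase j, s l) • (Matrix.of fun t t' => lf c x j t (J t')) := by
    ext t t'
    simp [lf_smul]
  rw [h, Matrix.det_smul, Fintype.card_fin]

end

section

variable (K : Type) [Field K] [NumberField K]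

/-- the finite set `S1 K b` -/
noncomputable def s1 (b : ℕ) : Finset K := (S1_finite K b).toFinset

variable {K}

theorem mem_s1 {b : ℕ} {x : K} : x ∈ s1 K b ↔ x ∈ S1 K b := by
  unfold s1
  rw [Set.Finite.mem_toFinset]

theorem card_bx (m b : ℕ) : (bx K m b).card = (s1 K b).card ^ m := by
  unfold bx s1
  rw [Fintype.card_piFinset_const]

theorem s1_pos (b : ℕ) : 1 ≤ (s1 K b).card := by
  refine card_pos.mpr ⟨0, mem_s1.mpr ⟨isIntegral_zero, fun φ => ?_⟩⟩
  rw [map_zero, norm_zero]
  exact Nat.cast_nonneg _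

theorem dg_pos : 0 < dg K := Module.finrank_pos

theorem s1_le : ∃ C : ℝ, 1 ≤ C ∧ ∀ B : ℕ, 1 ≤ B → ((s1 K B).card : ℝ) ≤ C * (B : ℝ) ^ dg K := by
  classical
  refine ⟨3 ^ dg K * (s1 K 1).card, ?_, fun B hB => ?_⟩
  · have h1 : (1 : ℝ) ≤ 3 ^ dg K := one_le_pow₀ (by norm_num)
    have h2 : (1 : ℝ) ≤ (s1 K 1).card := by exact_mod_cast s1_pos (K := K) 1
    nlinarith
  · have h := Q144.MM.db K 1 ⊤ 1 (by
      rw [finrank_top, Module.finrank_fin_fun]) B 1 le_rfl hB
    simp only [Submodule.mem_top, filter_true, card_bx, pow_one, mul_one, Nat.cast_one, div_one,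
      mul_pow] at h
    calc ((s1 K B).card : ℝ) ≤ 3 ^ dg K * (B : ℝ) ^ dg K * ((s1 K 1).card : ℝ) := h
      _ = _ := by ring

theorem s1_ge : ∃ c : ℝ, 0 < c ∧ ∃ B0 : ℕ, ∀ B : ℕ, B0 ≤ B →
    c * (B : ℝ) ^ dg K ≤ ((s1 K B).card : ℝ) := by
  classical
  obtain ⟨c, hc, B0, h⟩ := Pool.Agent.Q285.MM.lw K 1 ⊤
  refine ⟨c, hc, B0, fun B hB => ?_⟩
  have h1 := h B hB
  simp only [Submodule.mem_top, filter_true, card_bx, pow_one, finrank_top,
    Module.finrank_fin_fun, mul_one] at h1
  exact h1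

/-- the sets `s1` are large -/
theorem s1_large (m : ℕ) : ∃ B0 : ℕ, ∀ B : ℕ, B0 ≤ B → m ≤ (s1 K B).card := by
  obtain ⟨c, hc, B1, h⟩ := s1_ge (K := K)
  obtain ⟨B2, hB2⟩ := exists_nat_ge ((m : ℝ) / c)
  refine ⟨max B1 (max B2 1), fun B hB => ?_⟩
  have h1 := h B ((le_max_left _ _).trans hB)
  have h2 : B2 ≤ B := ((le_max_left _ _).trans (le_max_right _ _)).trans hB
  have h3 : 1 ≤ B := ((le_max_right _ _).trans (le_max_right _ _)).trans hB
  have h4 : (m : ℝ) / c ≤ B := hB2.trans (by exact_mod_cast h2)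
  rw [div_le_iff₀ hc] at h4
  have h5 : (B : ℝ) ≤ (B : ℝ) ^ dg K :=
    le_self_pow₀ (by exact_mod_cast h3) (Nat.pos_iff_ne_zero.mp dg_pos)
  have h6 : (m : ℝ) ≤ (s1 K B).card := by nlinarith
  exact_mod_cast h6

end

end Pool.Agent.Q162.LO
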