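import Mathlib
import Pool.Agent.Q162.LO.Base

/-!
Project LO of helper35, job LO-REG: many regular families of vectors
-/

set_option autoImplicit false

namespace Pool.Agent.Q162.LO

open Finset Function MvPolynomial Filter Topology
open Pool.Agent.Q35.MM (bx dg Pts S1 S1_finite mem_bx)
open Pool.Agent.Q35.SM (Cof Vs Var Pol ev pv MH)
open Pool.Agent.Q35.LO (lf mnr VV)
open Pool.Agent.Q298.SM (ev_lin ev_map pv_map upd_map upd_single)

/-- a nonzero polynomial has a nonzero value on a large product -/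
theorem exists_ne {σ : Type} [Fintype σ] [DecidableEq σ] {R : Type} [CommRing R] [IsDomain R]
    [DecidableEq R] (p : MvPolynomial σ R) (hp : p ≠ 0) (S : σ → Finset R)
    (hS : ∀ i, p.totalDegree + 1 ≤ (S i).card) :
    ∃ x ∈ Fintype.piFinset S, eval x p ≠ 0 := by
  by_contra h
  push Not at h
  have h1 := sz_gen p hp S (p.totalDegree + 1) hS
  rw [filter_true_of_mem h, Fintype.card_piFinset] at h1
  have h2 : 0 < ∏ i, (S i).card := prod_pos fun i _ => lt_of_lt_of_le (Nat.succ_pos _) (hS i)
  nlinarith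

section

variable {K : Type} [Field K] {ι : Type} [Fintype ι] [DecidableEq ι] {n : ι → ℕ} {k : ℕ}

/-- the minor over the complex numbers -/
noncomputable def mnrC (φ : K →+* ℂ) (c : Fin k → Cof K n) (w : Vs ℂ n) (j : ι)
    (J : Fin k → Fin (n j + 1)) : ℂ :=
  letI := φ.toAlgebra
  mnr c w j J

theorem mnrC_map (φ : K →+* ℂ) (c : Fin k → Cof K n) (x : Vs K n) (j : ι)
    (J : Fin k → Fin (n j + 1)) : mnrC φ c (fun l a => φ (x l a)) j J = φ (mnr c x j J) := by
  let _ := φ.toAlgebra
  exact mnr_map (Algebra.ofId K ℂ) c x j J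

theorem mnrC_smul (φ : K →+* ℂ) (c : Fin k → Cof K n) (w : Vs ℂ n) (j : ι)
    (J : Fin k → Fin (n j + 1)) (s : ι → ℂ) : mnrC φ c (fun l a => s l * w l a) j J =
      (∏ l ∈ univ.erase j, s l) ^ k * mnrC φ c w j J := by
  let _ := φ.toAlgebra
  exact mnr_smul c w j J s

theorem mnrC_update (φ : K →+* ℂ) (c : Fin k → Cof K n) (w : Vs ℂ n) (j : ι)
    (J : Fin k → Fin (n j + 1)) (z : Fin (n j + 1) → ℂ) :
    mnrC φ c (update w j z) j J = mnrC φ c w j J := by
  let _ := φ.toAlgebra
  exact mnr_update c w j z J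

theorem mnrC_cont (φ : K →+* ℂ) (c : Fin k → Cof K n) (j : ι) (J : Fin k → Fin (n j + 1)) :
    Continuous fun w : Vs ℂ n => mnrC φ c w j J := by
  let _ := φ.toAlgebra
  unfold mnrC mnr
  refine Continuous.matrix_det ?_
  refine continuous_matrix fun t t' => ?_
  simp only [Matrix.of_apply]
  unfold lf ev
  refine continuous_finsetSum _ fun a _ => ?_
  refine continuous_const.mul ?_
  refine continuous_finsetProd _ fun i _ => ?_
  by_cases hi : i = j
  · subst hi
    simp only [update_self]
    exact continuous_const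
  · simp only [update_of_ne hi]
    exact (continuous_apply (a i)).comp (continuous_apply i)

/-- the minor is bounded below near a point where it does not vanish -/
theorem mnr_near [NumberField K] (c : Fin k → Cof K n) (j : ι) (J : Fin k → Fin (n j + 1))
    (x0 : Vs K n) (h0 : mnr c x0 j J ≠ 0) (M : ℕ) (hM : 1 ≤ M) :
    ∃ δ : ℝ, 0 < δ ∧ δ ≤ 1 ∧ ∀ (φ : K →+* ℂ) (w : Vs ℂ n),
      (∀ l a, l ≠ j → ‖w l a - (M : ℂ)⁻¹ * φ (x0 l a)‖ ≤ δ) → δ ≤ ‖mnrC φ c w j J‖ := by
  have key : ∀ φ : K →+* ℂ, ∀ᶠ δ in 𝓝[>] (0 : ℝ), ∀ w : Vs ℂ n,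
      (∀ l a, l ≠ j → ‖w l a - (M : ℂ)⁻¹ * φ (x0 l a)‖ ≤ δ) → δ ≤ ‖mnrC φ c w j J‖ := by
    intro φ
    set w0 : Vs ℂ n := fun l a => (M : ℂ)⁻¹ * φ (x0 l a) with hw0
    have hM0 : (M : ℂ) ≠ 0 := by
      have : M ≠ 0 := by omega
      exact_mod_cast this
    have h1 : mnrC φ c w0 j J ≠ 0 := by
      have h2 := mnrC_smul φ c (fun l a => φ (x0 l a)) j J (fun _ => (M : ℂ)⁻¹)
      rw [hw0, h2, mnrC_map]
      refine mul_ne_zero (pow_ne_zero _ (prod_ne_zero_iff.mpr fun l _ => inv_ne_zero hM0)) ?_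
      rw [Ne, map_eq_zero]
      exact h0
    have h2 : 0 < ‖mnrC φ c w0 j J‖ := norm_pos_iff.mpr h1
    have h3 : ∀ᶠ w in 𝓝 w0, ‖mnrC φ c w0 j J‖ / 2 < ‖mnrC φ c w j J‖ := by
      have h4 : Tendsto (fun w : Vs ℂ n => ‖mnrC φ c w j J‖) (𝓝 w0) (𝓝 ‖mnrC φ c w0 j J‖) :=
        ((mnrC_cont φ c j J).norm).tendsto w0
      exact h4.eventually_const_lt (by linarith)
    obtain ⟨ε, hε, h4⟩ := Metric.eventually_nhds_iff.mp h3
    have h5 : ∀ᶠ δ in 𝓝[>] (0 : ℝ), δ ∈ Set.Ioo 0 (min ε (‖mnrC φ c w0 j J‖ / 2)) :=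
      Ioo_mem_nhdsGT (lt_min hε (by linarith))
    filter_upwards [h5] with δ hδ w hw
    have h6 : dist (update w j (w0 j)) w0 < ε := by
      refine lt_of_le_of_lt ?_ (lt_of_lt_of_le hδ.2 (min_le_left _ _))
      rw [dist_pi_le_iff hδ.1.le]
      intro l
      rw [dist_pi_le_iff hδ.1.le]
      intro a
      by_cases hl : l = j
      · subst hl
        rw [update_self, dist_self]
        exact hδ.1.le
      · rw [update_of_ne hl, dist_eq_norm]
        exact hw l a hl
    have h7 := h4 h6
    rw [mnrC_update] at h7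
    have h8 : δ < ‖mnrC φ c w0 j J‖ / 2 := lt_of_lt_of_le hδ.2 (min_le_right _ _)
    linarith
  have h1 := eventually_all.mpr key
  have h2 : ∀ᶠ δ in 𝓝[>] (0 : ℝ), δ ∈ Set.Ioo (0 : ℝ) 1 := Ioo_mem_nhdsGT one_pos
  obtain ⟨δ, h3, h4⟩ := (h1.and h2).exists
  exact ⟨δ, h4.1, h4.2.le, fun φ w => h3 φ w⟩

end

/-- job LO-REG -/
theorem reg : Pool.Agent.Q35.LO.S_REG := by
  classical
  intro K _ _ ι _ _ n k c j g J hex
  obtain ⟨xb, hxb0, hxbg, hxbm⟩ := hex
  set gn : Vs (Pol K n) n := fun i a => X ⟨i, a⟩ with hgn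
  set F : Pol K n := mnr c gn j J with hF
  set G : Pol K n := pv (Pol K n) g (update gn j ((Cm c gn j J).mulVec (gn j))) with hG
  have hgnx : ∀ (A : Type) [CommRing A] [Algebra K A] (x : Vs A n),
      (fun l b => (aeval (fun v : Var n => x v.1 v.2) : Pol K n →ₐ[K] A) (gn l b)) = x := by
    intro A _ _ x
    funext l b
    simp [hgn]
  have hFv : ∀ (A : Type) [CommRing A] [Algebra K A] (x : Vs A n),
      pv A F x = mnr c x j J := by
    intro A _ _ x
    have h1 := mnr_map (aeval (fun v : Var n => x v.1 v.2) : Pol K n →ₐ[K] A) c gn j J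
    rw [hgnx] at h1
    exact h1.symm
  have hGv : ∀ (A : Type) [CommRing A] [Algebra K A] (x : Vs A n),
      pv A G x = pv A g (update x j ((Cm c x j J).mulVec (x j))) := by
    intro A _ _ x
    set φ : Pol K n →ₐ[K] A := aeval (fun v : Var n => x v.1 v.2) with hφ
    have h1 := pv_map φ g (update gn j ((Cm c gn j J).mulVec (gn j)))
    rw [upd_map φ] at h1
    have h2 : (fun a => φ ((Cm c gn j J).mulVec (gn j) a)) = (Cm c x j J).mulVec (x j) := by
      funext a
      have h3 := Cm_map φ c gn j J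
      rw [hgnx A x] at h3
      rw [h3]
      simp only [Matrix.mulVec, dotProduct, map_sum, map_mul, Matrix.map_apply]
      refine sum_congr rfl fun b _ => ?_
      congr 1
      exact congrFun (congrFun (hgnx A x) j) b
    rw [h2, hgnx A x] at h1
    exact h1.symm
  have hF0 : F ≠ 0 := by
    intro h
    apply hxbm
    rw [← hFv (AlgebraicClosure K) xb, h]
    unfold pv
    exact map_zero _
  have hG0 : G ≠ 0 := by
    intro h
    apply hxbg
    set Δ := mnr c xb j J with hΔ
    have h1 := hGv (AlgebraicClosure K) (update xb j (Δ⁻¹ • xb j))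
    have h2 : (Lm c xb j).mulVec (xb j) = 0 := by
      funext t
      rw [← ev_eq c xb j t (xb j), update_eq_self]
      exact hxb0 t
    rw [Cm_update, update_self, update_idem, Matrix.mulVec_smul, Cm_mulVec c xb j J _ h2, smul_smul,
      inv_mul_cancel₀ hxbm, one_smul, update_eq_self] at h1
    rw [← h1, h]
    unfold pv
    exact map_zero _
  -- a point with a nonzero minor
  obtain ⟨M0, hM0⟩ := s1_large (K := K) (F.totalDegree + 1)
  obtain ⟨x0, hx0, hx0F⟩ := exists_ne F hF0 (fun _ => s1 K M0) (fun _ => hM0 M0 le_rfl)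
  rw [Fintype.mem_piFinset] at hx0
  have hav : ∀ (w : Var n → K) (q : Pol K n), pv K q (fun l a => w ⟨l, a⟩) = eval w q := fun w q =>
    DFunLike.congr_fun (coe_aeval_eq_eval w) q
  set X0 : Vs K n := fun l a => x0 ⟨l, a⟩ with hX0
  have hX0m : mnr c X0 j J ≠ 0 := by
    rw [← hFv K X0, hX0, hav]
    exact hx0F
  set M : ℕ := 4 * (M0 + 1) with hM
  obtain ⟨δ, hδ, hδ1, hnear⟩ := mnr_near c j J X0 hX0m M (by omega)
  obtain ⟨q, hq⟩ := exists_nat_ge (4 / δ)
  have hq4 : 4 ≤ q := by
    have h1 : (4 : ℝ) ≤ 4 / δ := by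
      rw [le_div_iff₀ hδ]
      linarith
    exact_mod_cast h1.trans hq
  have hqδ : 1 / (q : ℝ) ≤ δ / 4 := by
    have hq0 : (0 : ℝ) < q := by
      have : 0 < q := by omega
      exact_mod_cast this
    rw [div_le_iff₀ hδ] at hq
    rw [div_le_iff₀ hq0]
    linarith
  obtain ⟨B1, hB1⟩ := s1_large (K := K) (2 * G.totalDegree + 1)
  obtain ⟨c', hc', B2, hB2⟩ := s1_ge (K := K)
  obtain ⟨B3, hB3⟩ := exists_nat_ge (2 * (M0 : ℝ) / δ)
  refine ⟨δ, 1 / 2 * ∏ l ∈ univ.erase j, (c' * (1 / (2 * (q : ℝ))) ^ dg K) ^ (n l + 1),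
    q * (B1 + B2 + 2) + B3, hδ, by positivity, fun b hb => ?_⟩
  have hbq : ∀ l, B1 + B2 + 2 ≤ b l / q := by
    intro l
    rw [Nat.le_div_iff_mul_le (by omega)]
    have := hb l
    nlinarith
  have hbB3 : ∀ l, B3 ≤ b l := fun l => le_trans (Nat.le_add_left _ _) (hb l)
  have hb1 : ∀ l, 1 ≤ b l := by
    intro l
    have h1 := hb l
    have h2 : 1 ≤ q * (B1 + B2 + 2) := Nat.one_le_iff_ne_zero.mpr (by positivity)
    omega
  -- the sets
  set S : Var n → Finset K := fun v => if v.1 = j then s1 K B1 else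
    (s1 K (b v.1 / q)).image fun e => ((b v.1 / M : ℕ) : K) * x0 v + e with hS
  have hScard : ∀ v : Var n, (S v).card = if v.1 = j then (s1 K B1).card else
      (s1 K (b v.1 / q)).card := by
    intro v
    rw [hS]
    dsimp only
    split_ifs with h
    · rfl
    · exact card_image_of_injective _ (add_right_injective _)
  have hSm : ∀ v, 2 * G.totalDegree + 1 ≤ (S v).card := by
    intro v
    rw [hScard]
    split_ifs with h
    · exact hB1 B1 le_rfl
    · refine hB1 _ ?_
      have := hbq v.1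
      omega
  have hprod : ∏ v : Var n, (S v).card = (s1 K B1).card ^ (n j + 1) *
      ∏ l ∈ univ.erase j, (s1 K (b l / q)).card ^ (n l + 1) := by
    rw [Fintype.prod_sigma]
    have h1 : ∀ l : ι, ∏ a : Fin (n l + 1), (S ⟨l, a⟩).card =
        (if l = j then (s1 K B1).card else (s1 K (b l / q)).card) ^ (n l + 1) := by
      intro l
      have h2 : ∀ a : Fin (n l + 1), (S ⟨l, a⟩).card =
          if l = j then (s1 K B1).card else (s1 K (b l / q)).card := fun a => hScard ⟨l, a⟩
      simp only [h2, prod_const, card_univ, Fintype.card_fin]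
    simp only [h1]
    rw [← mul_prod_erase univ _ (mem_univ j), if_pos rfl]
    congr 1
    refine prod_congr rfl fun l hl => ?_
    rw [if_neg (ne_of_mem_erase hl)]
  set W := (Fintype.piFinset S).filter fun w => ¬ eval w G = 0 with hW
  have hWcard : ∏ v : Var n, (S v).card ≤ 2 * W.card := by
    have h1 := sz_gen G hG0 S (2 * G.totalDegree + 1) hSm
    have h2 := card_filter_add_card_filter_not (s := Fintype.piFinset S) (fun w => eval w G = 0)
    rw [Fintype.card_piFinset, ← hW] at h2
    set Zc := ((Fintype.piFinset S).filter fun w => eval w G = 0).card with hZc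
    set Pc := ∏ v : Var n, (S v).card with hPc
    have h3 : 2 * Zc ≤ Pc := by
      have h4 : (2 * Zc) * (2 * G.totalDegree + 1) ≤ Pc * (2 * G.totalDegree + 1) := by nlinarith
      exact Nat.le_of_mul_le_mul_right h4 (Nat.succ_pos _)
    omega
  set R := (Fintype.piFinset fun l => if l = j then {0} else bx K (n l + 1) (b l)).filter
    (fun x : Vs K n => (∀ φ : K →+* ℂ,
      δ * (∏ l ∈ univ.erase j, (b l : ℝ)) ^ k ≤ ‖φ (mnr c x j J)‖) ∧
      ∃ y ∈ VV c x j, pv K g (update x j y) ≠ 0) with hR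
  have hWR : W.card ≤ R.card * (s1 K B1).card ^ (n j + 1) := by
    have h1 : (R ×ˢ (Fintype.piFinset fun _ : Fin (n j + 1) => s1 K B1)).card =
        R.card * (s1 K B1).card ^ (n j + 1) := by
      rw [card_product, Fintype.card_piFinset_const]
    rw [← h1]
    refine card_le_card_of_injOn
      (fun w => (update (fun l a => w ⟨l, a⟩) j 0, fun a => w ⟨j, a⟩)) ?_ ?_
    · intro w hw
      rw [mem_coe, hW, mem_filter, Fintype.mem_piFinset] at hw
      obtain ⟨hw1, hw2⟩ := hw
      have hoff : ∀ l a, l ≠ j → ∃ e ∈ s1 K (b l / q),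
          ((b l / M : ℕ) : K) * x0 ⟨l, a⟩ + e = w ⟨l, a⟩ := by
        intro l a hl
        have h2 := hw1 ⟨l, a⟩
        rw [hS] at h2
        dsimp only at h2
        rw [if_neg hl, mem_image] at h2
        exact h2
      rw [mem_coe, mem_product]
      refine ⟨?_, ?_⟩
      · show update (fun l a => w ⟨l, a⟩) j 0 ∈ R
        rw [hR, mem_filter, Fintype.mem_piFinset]
        refine ⟨fun l => ?_, fun φ => ?_, ?_⟩
        · by_cases hl : l = j
          · subst hl
            rw [update_self, if_pos rfl, mem_singleton]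
          · rw [update_of_ne hl, if_neg hl, mem_bx]
            intro a
            obtain ⟨e, he, h2⟩ := hoff l a hl
            show w ⟨l, a⟩ ∈ S1 K (b l)
            rw [← h2]
            have he' := mem_s1.mp he
            have hx0' := mem_s1.mp (hx0 ⟨l, a⟩)
            refine ⟨?_, fun φ => ?_⟩
            · refine IsIntegral.add (IsIntegral.mul ?_ hx0'.1) he'.1
              have hnc := isIntegral_algebraMap (R := ℤ) (A := K) (x := ((b l / M : ℕ) : ℤ))
              rw [map_natCast] at hnc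
              exact hnc
            · rw [map_add, map_mul, map_natCast]
              refine (norm_add_le _ _).trans ?_
              rw [norm_mul, Complex.norm_natCast]
              have h3 := hx0'.2 φ
              have h4 := he'.2 φ
              have h5 : ((b l / M : ℕ) : ℝ) * M ≤ b l := by
                exact_mod_cast Nat.div_mul_le_self (b l) M
              have h6 : ((b l / q : ℕ) : ℝ) * q ≤ b l := by
                exact_mod_cast Nat.div_mul_le_self (b l) q
              have h7 : (M : ℝ) = 4 * (M0 + 1) := by rw [hM]; push_cast; ring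
              have h8 : (0 : ℝ) ≤ ((b l / M : ℕ) : ℝ) := Nat.cast_nonneg _
              have h9 : (0 : ℝ) ≤ ((b l / q : ℕ) : ℝ) := Nat.cast_nonneg _
              have h10 : (4 : ℝ) ≤ q := by exact_mod_cast hq4
              have h11 : ((b l / M : ℕ) : ℝ) * ‖φ (x0 ⟨l, a⟩)‖ ≤ ((b l / M : ℕ) : ℝ) * M0 :=
                mul_le_mul_of_nonneg_left h3 h8
              have h12 : ((b l / M : ℕ) : ℝ) * M0 ≤ (b l : ℝ) / 4 := by
                rw [h7] at h5
                nlinarith
              have h13 : ((b l / q : ℕ) : ℝ) ≤ (b l : ℝ) / 4 := by nlinarith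
              have h14 : (0 : ℝ) ≤ b l := Nat.cast_nonneg _
              linarith
        · -- the minor
          have hmu : mnr c (update (fun l a => w ⟨l, a⟩ : Vs K n) j 0) j J =
              mnr c (fun l a => w ⟨l, a⟩ : Vs K n) j J := mnr_update c _ j 0 J
          rw [hmu]
          set v : Vs ℂ n := fun l a => ((b l : ℝ) : ℂ)⁻¹ * φ (w ⟨l, a⟩) with hv
          have hclose : ∀ l a, l ≠ j → ‖v l a - (M : ℂ)⁻¹ * φ (X0 l a)‖ ≤ δ := by
            intro l a hl
            obtain ⟨e, he, h2⟩ := hoff l a hl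
            have he' := (mem_s1.mp he).2 φ
            have hx0' := (mem_s1.mp (hx0 ⟨l, a⟩)).2 φ
            have hbl : (0 : ℝ) < b l := by exact_mod_cast hb1 l
            have hMp : (0 : ℝ) < M := by
              have : 0 < M := by omega
              exact_mod_cast this
            have hqp : (0 : ℝ) < q := by
              have : 0 < q := by omega
              exact_mod_cast this
            have h3 : v l a - (M : ℂ)⁻¹ * φ (X0 l a) =
                (((((b l / M : ℕ) : ℝ) / (b l : ℝ) - 1 / (M : ℝ) : ℝ)) : ℂ) * φ (x0 ⟨l, a⟩) +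
                ((b l : ℝ) : ℂ)⁻¹ * φ e := by
              show ((b l : ℝ) : ℂ)⁻¹ * φ (w ⟨l, a⟩) - (M : ℂ)⁻¹ * φ (x0 ⟨l, a⟩) = _
              rw [← h2, map_add, map_mul, map_natCast]
              push_cast
              ring
            rw [h3]
            refine (norm_add_le _ _).trans ?_
            rw [norm_mul, norm_mul, Complex.norm_real, norm_inv, Complex.norm_real,
              Real.norm_eq_abs, Real.norm_eq_abs, abs_of_pos hbl]
            have h4 : |((b l / M : ℕ) : ℝ) / (b l : ℝ) - 1 / (M : ℝ)| ≤ 1 / (b l : ℝ) := by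
              have h5 : ((b l / M : ℕ) : ℝ) * M ≤ b l := by
                exact_mod_cast Nat.div_mul_le_self (b l) M
              have h6 : (b l : ℝ) ≤ ((b l / M : ℕ) : ℝ) * M + M := by
                have h7 := Nat.lt_div_mul_add (a := b l) (b := M) (by omega)
                exact_mod_cast h7.le
              have h8 : ((b l / M : ℕ) : ℝ) / (b l : ℝ) - 1 / (M : ℝ) =
                  (((b l / M : ℕ) : ℝ) * M - b l) / (b l * M) := by
                field_simp
              have h9 : |((b l / M : ℕ) : ℝ) * M - b l| ≤ M :=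
                abs_le.mpr ⟨by linarith, by linarith⟩
              rw [h8, abs_div, abs_of_pos (mul_pos hbl hMp), div_le_div_iff₀ (mul_pos hbl hMp) hbl]
              calc |((b l / M : ℕ) : ℝ) * M - b l| * (b l : ℝ) ≤ M * (b l : ℝ) :=
                    mul_le_mul_of_nonneg_right h9 hbl.le
                _ = 1 * ((b l : ℝ) * M) := by ring
            have h5 : 1 / (b l : ℝ) * M0 ≤ δ / 2 := by
              have h6 : 2 * (M0 : ℝ) / δ ≤ b l := hB3.trans (by exact_mod_cast hbB3 l)
              rw [div_le_iff₀ hδ] at h6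
              rw [one_div, inv_mul_le_iff₀ hbl]
              linarith
            have h6 : (b l : ℝ)⁻¹ * ‖φ e‖ ≤ δ / 4 := by
              have h7 : ((b l / q : ℕ) : ℝ) * q ≤ b l := by
                exact_mod_cast Nat.div_mul_le_self (b l) q
              rw [inv_mul_le_iff₀ hbl]
              have h8 : ((b l / q : ℕ) : ℝ) ≤ (b l : ℝ) * (1 / q) := by
                rw [mul_one_div, le_div_iff₀ hqp]
                exact h7
              have h9 : (b l : ℝ) * (1 / q) ≤ b l * (δ / 4) := mul_le_mul_of_nonneg_left hqδ hbl.le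
              linarith
            have h7 : |((b l / M : ℕ) : ℝ) / (b l : ℝ) - 1 / (M : ℝ)| * ‖φ (x0 ⟨l, a⟩)‖ ≤
                1 / (b l : ℝ) * M0 :=
              mul_le_mul h4 hx0' (norm_nonneg _) (by positivity)
            linarith
          have h2 := hnear φ v hclose
          have h3 : mnrC φ c v j J = (∏ l ∈ univ.erase j, ((b l : ℝ) : ℂ)⁻¹) ^ k *
              φ (mnr c (fun l a => w ⟨l, a⟩) j J) := by
            rw [hv, mnrC_smul φ c (fun l a => φ (w ⟨l, a⟩)) j J (fun l => ((b l : ℝ) : ℂ)⁻¹),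
              mnrC_map φ c (fun l a => w ⟨l, a⟩) j J]
          have hPp : 0 < ∏ l ∈ univ.erase j, (b l : ℝ) :=
            prod_pos fun l _ => by exact_mod_cast hb1 l
          have h4 : ‖(∏ l ∈ univ.erase j, ((b l : ℝ) : ℂ)⁻¹) ^ k‖ =
              ((∏ l ∈ univ.erase j, (b l : ℝ)) ^ k)⁻¹ := by
            rw [norm_pow, norm_prod, ← inv_pow, ← prod_inv_distrib]
            congr 1
            refine prod_congr rfl fun l _ => ?_
            rw [norm_inv, Complex.norm_real, Real.norm_eq_abs, abs_of_nonneg (Nat.cast_nonneg _)]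
          rw [h3, norm_mul, h4, le_inv_mul_iff₀ (pow_pos hPp k), mul_comm] at h2
          exact h2
        · refine ⟨(Cm c (fun l a => w ⟨l, a⟩) j J).mulVec (fun a => w ⟨j, a⟩), ?_, ?_⟩
          · rw [mem_VV, Lm_update, Matrix.mulVec_mulVec, Lm_mul_Cm, Matrix.zero_mulVec]
          · have h2 := hGv K (fun l a => w ⟨l, a⟩)
            rw [hav w G] at h2
            rw [update_idem, ← h2]
            exact hw2
      · rw [Fintype.mem_piFinset]
        intro a
        have h2 := hw1 ⟨j, a⟩
        rw [hS] at h2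
        dsimp only at h2
        rw [if_pos rfl] at h2
        exact h2
    · intro w _ w' _ h
      have h2 := Prod.mk.inj h
      funext v
      obtain ⟨l, a⟩ := v
      by_cases hl : l = j
      · subst hl
        exact congrFun h2.2 a
      · have h3 := congrFun (congrFun h2.1 l) a
        rw [update_of_ne hl, update_of_ne hl] at h3
        exact h3
  have hfin : ∏ l ∈ univ.erase j, (s1 K (b l / q)).card ^ (n l + 1) ≤ 2 * R.card := by
    have h1 : (s1 K B1).card ^ (n j + 1) *
        (∏ l ∈ univ.erase j, (s1 K (b l / q)).card ^ (n l + 1)) ≤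
        (s1 K B1).card ^ (n j + 1) * (2 * R.card) := by
      rw [← hprod]
      calc ∏ v : Var n, (S v).card ≤ 2 * W.card := hWcard
        _ ≤ 2 * (R.card * (s1 K B1).card ^ (n j + 1)) := Nat.mul_le_mul_left _ hWR
        _ = _ := by ring
    exact Nat.le_of_mul_le_mul_left h1 (pow_pos (s1_pos B1) _)
  have hfin' : ∏ l ∈ univ.erase j, ((s1 K (b l / q)).card : ℝ) ^ (n l + 1) ≤ 2 * (R.card : ℝ) := by
    exact_mod_cast hfin
  have hlow : ∏ l ∈ univ.erase j, ((c' * (1 / (2 * (q : ℝ))) ^ dg K) ^ (n l + 1) *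
      (b l : ℝ) ^ (dg K * (n l + 1))) ≤
      ∏ l ∈ univ.erase j, ((s1 K (b l / q)).card : ℝ) ^ (n l + 1) := by
    refine prod_le_prod (fun l _ => by positivity) fun l _ => ?_
    have h1 : c' * ((b l / q : ℕ) : ℝ) ^ dg K ≤ ((s1 K (b l / q)).card : ℝ) := by
      refine hB2 _ ?_
      have := hbq l
      omega
    have hqp : (0 : ℝ) < q := by
      have : 0 < q := by omega
      exact_mod_cast this
    have h2 : 1 / (2 * (q : ℝ)) * b l ≤ ((b l / q : ℕ) : ℝ) := by
      have h3 : (b l : ℝ) ≤ ((b l / q : ℕ) : ℝ) * q + q := by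
        have h7 := Nat.lt_div_mul_add (a := b l) (b := q) (by omega)
        exact_mod_cast h7.le
      have h4 : (1 : ℝ) ≤ ((b l / q : ℕ) : ℝ) := by
        have h5 : 1 ≤ b l / q := by
          have := hbq l
          omega
        exact_mod_cast h5
      rw [one_div, inv_mul_le_iff₀ (by positivity)]
      nlinarith
    calc (c' * (1 / (2 * (q : ℝ))) ^ dg K) ^ (n l + 1) * (b l : ℝ) ^ (dg K * (n l + 1))
        = (c' * (1 / (2 * (q : ℝ)) * b l) ^ dg K) ^ (n l + 1) := by
          rw [mul_pow (1 / (2 * (q : ℝ))), pow_mul, ← mul_pow]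
          congr 1
          ring
      _ ≤ ((s1 K (b l / q)).card : ℝ) ^ (n l + 1) := by
          refine pow_le_pow_left₀ (by positivity) ?_ _
          refine le_trans ?_ h1
          exact mul_le_mul_of_nonneg_left (pow_le_pow_left₀ (by positivity) h2 _) hc'.le
  rw [prod_mul_distrib] at hlow
  linarith

end Pool.Agent.Q162.LO
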