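import Mathlib
import Pool.Agent.Q162.LO.Base
import Pool.Agent.Q35.SM.Hom

/-!
Project LO of helper35, job LO-SC: the number of points at one scale
-/

set_option autoImplicit false

namespace Pool.Agent.Q162.LO

open Finset Function MvPolynomial
open Pool.Agent.Q35.MM (bx dg Pts S1 S1_finite mem_bx)
open Pool.Agent.Q35.SM (Cof Vs Var Pol ev pv MH pv_smul ev_smul)
open Pool.Agent.Q35.LO

/-- the standard frame -/
theorem frame_top (K : Type) [Field K] [NumberField K] (N : ℕ) :
    Frame K N N ⊤ 1 1 := by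
  refine ⟨fun i => Pi.single i 1, fun i => i, 1, fun _ => Submodule.mem_top, ?_, ?_, ?_, ?_⟩
  · intro x _
    have h1 : x = ∑ i, x i • (Pi.single i 1 : Fin N → K) := by
      funext a
      simp [Pi.single_apply]
    rw [h1]
    exact Submodule.sum_mem _ fun i _ =>
      Submodule.smul_mem _ _ (Submodule.subset_span ⟨i, rfl⟩)
  · intro i
    rw [mem_bx]
    intro a
    show (Pi.single i 1 : Fin N → K) a ∈ S1 K 1
    by_cases h : a = i
    · subst h
      rw [Pi.single_eq_same]
      exact ⟨isIntegral_one, fun φ => by simp⟩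
    · rw [Pi.single_eq_of_ne h]
      exact ⟨isIntegral_zero, fun φ => by simp⟩
  · intro i i'
    by_cases h : i = i'
    · subst h
      simp
    · simp [h]
  · intro φ
    simp

theorem ne_zero_of_mnr {K : Type} [Field K] {ι : Type} [Fintype ι] [DecidableEq ι] {n : ι → ℕ}
    {k : ℕ} (hk : 1 ≤ k) (c : Fin k → Cof K n) (x : Vs K n) (j : ι) (J : Fin k → Fin (n j + 1))
    (h : mnr c x j J ≠ 0) (l : ι) (hl : l ≠ j) : x l ≠ 0 := by
  intro h0
  apply h
  have h1 := mnr_smul c x j J (update (fun _ => (1 : K)) l 0)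
  have h2 : (fun l' b => update (fun _ => (1 : K)) l 0 l' * x l' b) = x := by
    funext l' b
    by_cases hl' : l' = l
    · subst hl'
      rw [update_self, zero_mul, h0]
      rfl
    · rw [update_of_ne hl', one_mul]
  rw [h2] at h1
  rw [h1]
  have h3 : ∏ l' ∈ univ.erase j, update (fun _ => (1 : K)) l 0 l' = 0 :=
    prod_eq_zero (mem_erase.mpr ⟨hl, mem_univ l⟩) (update_self _ _ _)
  rw [h3, zero_pow (by omega), zero_mul]

/-- from tuples to points -/
theorem pts_of_tuples (hREP : S_REP) (K : Type) [Field K] [NumberField K] (ι : Type) [Fintype ι]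
    [DecidableEq ι] (n : ι → ℕ) (b : ι → ℕ) (η : ℝ) (hη : 0 < η) (hb : ∀ l, 1 ≤ b l)
    (Q : Finset (Vs K n)) (hQ : ∀ z ∈ Q, ∀ l, z l ∈ bx K (n l + 1) (b l) ∧ z l ≠ 0 ∧
      (η * b l) ^ dg K ≤ Height.mulHeight (z l)) :
    ∃ S : Finset (Pts K n), (∀ x ∈ S, ∃ z ∈ Q, ∃ a : ι → K, (∀ l, a l ≠ 0) ∧
      (fun i => (x i).rep) = (fun i => a i • z i) ∧
      ∀ l, (x l).mulHeight = Height.mulHeight (z l)) ∧
      (Q.card : ℝ) ≤ ((3 / η) ^ dg K) ^ Fintype.card ι * (S.card : ℝ) := by
  classical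
  have hne0 : ∀ l, (Pi.single 0 1 : Fin (n l + 1) → K) ≠ 0 := by
    intro l h
    have := congrFun h 0
    simp at this
  set π : Vs K n → Pts K n := fun z l => if h : z l ≠ 0 then Projectivization.mk K (z l) h else
    Projectivization.mk K (Pi.single 0 1) (hne0 l) with hπ
  have hπz : ∀ z ∈ Q, ∀ l, ∃ h : z l ≠ 0, π z l = Projectivization.mk K (z l) h := by
    intro z hz l
    have h := (hQ z hz l).2.1
    refine ⟨h, ?_⟩
    rw [hπ]
    dsimp only
    rw [dif_pos h]
  have hrep : ∀ z ∈ Q, ∃ a : ι → K, (∀ l, a l ≠ 0) ∧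
      (fun i => (π z i).rep) = (fun i => a i • z i) := by
    intro z hz
    have h1 : ∀ l, ∃ a : K, a ≠ 0 ∧ (π z l).rep = a • z l := by
      intro l
      obtain ⟨h, h2⟩ := hπz z hz l
      obtain ⟨a, ha⟩ := Projectivization.exists_smul_eq_mk_rep K (z l) h
      refine ⟨a, a.ne_zero, ?_⟩
      rw [h2, ← ha]
      rfl
    choose a ha0 ha using h1
    exact ⟨a, ha0, funext ha⟩
  have hht : ∀ z ∈ Q, ∀ l, (π z l).mulHeight = Height.mulHeight (z l) := by
    intro z hz l
    obtain ⟨h, h2⟩ := hπz z hz l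
    rw [h2, Projectivization.mulHeight_mk]
  have hht' : ∀ (p : Pts K n) (l : ι), Height.mulHeight (p l).rep = (p l).mulHeight := by
    intro p l
    conv_rhs => rw [← (p l).mk_rep]
    rw [Projectivization.mulHeight_mk]
  refine ⟨Q.image π, ?_, ?_⟩
  · intro x hx
    obtain ⟨z, hz, rfl⟩ := mem_image.mp hx
    obtain ⟨a, ha0, ha⟩ := hrep z hz
    exact ⟨z, hz, a, ha0, ha, hht z hz⟩
  · have hfib : ∀ p ∈ Q.image π, ((Q.filter fun z => π z = p).card : ℝ) ≤
        ((3 / η) ^ dg K) ^ Fintype.card ι := by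
      intro p hp
      obtain ⟨z0, hz0, hz0p⟩ := mem_image.mp hp
      have hR := fun l => hREP K (n l + 1) (p l).rep (p l).rep_nonzero (b l) (hb l)
      have hT : ∀ l, (((hR l).1.toFinset.card : ℕ) : ℝ) ≤ (3 / η) ^ dg K := by
        intro l
        have h1 := (hR l).2
        rw [Set.ncard_eq_toFinset_card _ (hR l).1] at h1
        have h2 : (η * b l) ^ dg K ≤ Height.mulHeight (p l).rep := by
          rw [hht', ← hz0p, hht z0 hz0]
          exact (hQ z0 hz0 l).2.2
        have hbl : (0 : ℝ) < b l := by exact_mod_cast hb l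
        have h3 : (((hR l).1.toFinset.card : ℕ) : ℝ) * (η * b l) ^ dg K ≤
            3 ^ dg K * (b l : ℝ) ^ dg K :=
          (mul_le_mul_of_nonneg_left h2 (Nat.cast_nonneg _)).trans h1
        rw [mul_pow, ← mul_assoc] at h3
        have h4 := le_of_mul_le_mul_right h3 (pow_pos hbl _)
        rw [div_pow, le_div_iff₀ (pow_pos hη _)]
        exact h4
      have hex : ∀ z ∈ Q.filter (fun z => π z = p), ∀ l, ∃ t : K, t ≠ 0 ∧ t • (p l).rep = z l := by
        intro z hz l
        rw [mem_filter] at hz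
        obtain ⟨a, ha0, ha⟩ := hrep z hz.1
        refine ⟨(a l)⁻¹, inv_ne_zero (ha0 l), ?_⟩
        have h1 : (π z l).rep = a l • z l := congrFun ha l
        rw [hz.2] at h1
        rw [h1, smul_smul, inv_mul_cancel₀ (ha0 l), one_smul]
      have hcard : (Q.filter fun z => π z = p).card ≤
          (Fintype.piFinset fun l => (hR l).1.toFinset).card := by
        refine card_le_card_of_injOn
          (fun z l => if h : ∃ t : K, t ≠ 0 ∧ t • (p l).rep = z l then h.choose else 0) ?_ ?_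
        · intro z hz
          rw [mem_coe] at hz
          rw [mem_coe, Fintype.mem_piFinset]
          intro l
          have h1 := hex z hz l
          show (if h : ∃ t : K, t ≠ 0 ∧ t • (p l).rep = z l then h.choose else 0) ∈ _
          rw [dif_pos h1, Set.Finite.mem_toFinset]
          refine ⟨h1.choose_spec.1, ?_⟩
          rw [h1.choose_spec.2]
          rw [mem_filter] at hz
          exact (hQ z hz.1 l).1
        · intro z hz z' hz' h
          rw [mem_coe] at hz hz'
          funext l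
          have h1 := hex z hz l
          have h1' := hex z' hz' l
          have h2 := congrFun h l
          dsimp only at h2
          rw [dif_pos h1, dif_pos h1'] at h2
          rw [← h1.choose_spec.2, ← h1'.choose_spec.2, h2]
      calc ((Q.filter fun z => π z = p).card : ℝ)
          ≤ ((Fintype.piFinset fun l => (hR l).1.toFinset).card : ℝ) := by exact_mod_cast hcard
        _ = ∏ l, ((hR l).1.toFinset.card : ℝ) := by
            rw [Fintype.card_piFinset]
            push_cast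
            rfl
        _ ≤ ∏ _l : ι, (3 / η) ^ dg K := prod_le_prod (fun l _ => Nat.cast_nonneg _) fun l _ => hT l
        _ = ((3 / η) ^ dg K) ^ Fintype.card ι := by rw [prod_const, card_univ]
    rw [card_eq_sum_card_image π Q]
    push_cast
    calc ∑ p ∈ Q.image π, ((Q.filter fun z => π z = p).card : ℝ)
        ≤ ∑ _p ∈ Q.image π, ((3 / η) ^ dg K) ^ Fintype.card ι := sum_le_sum hfib
      _ = ((3 / η) ^ dg K) ^ Fintype.card ι * ((Q.image π).card : ℝ) := by
          rw [sum_const, nsmul_eq_mul, mul_comm]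

/-- the good vectors in a fibre -/
theorem good_card {a s z g0 C5 be P c3 bd C6 : ℝ} (hP : 0 < P) (hbe : 1 ≤ be)
    (hc3 : 0 < c3) (hC5 : 0 ≤ C5) (h1 : c3 * (be * bd) ≤ P * a) (h2 : a ≤ g0 + s + z + 1)
    (h3 : s ≤ 1 / 8 * a) (h4 : z ≤ C5 * be) (h5 : C6 * P ≤ bd) (h6 : 8 * (C5 + 1) / c3 ≤ C6) :
    c3 / 2 * (be * bd) ≤ P * g0 := by
  have h7 : 8 * (C5 + 1) * P ≤ c3 * bd := by
    rw [div_le_iff₀ hc3] at h6
    calc 8 * (C5 + 1) * P ≤ (C6 * c3) * P := mul_le_mul_of_nonneg_right h6 hP.le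
      _ = c3 * (C6 * P) := by ring
      _ ≤ c3 * bd := mul_le_mul_of_nonneg_left h5 hc3.le
  have h8 : 8 * (C5 + 1) * be ≤ a := by
    have h9 : P * (8 * (C5 + 1) * be) ≤ P * a := by
      calc P * (8 * (C5 + 1) * be) = (8 * (C5 + 1) * P) * be := by ring
        _ ≤ (c3 * bd) * be := mul_le_mul_of_nonneg_right h7 (by linarith)
        _ = c3 * (be * bd) := by ring
        _ ≤ P * a := h1
    exact le_of_mul_le_mul_left h9 hP
  have h9 : a / 2 ≤ g0 := by nlinarith
  calc c3 / 2 * (be * bd) = (c3 * (be * bd)) / 2 := by ring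
    _ ≤ (P * a) / 2 := by linarith
    _ = P * (a / 2) := by ring
    _ ≤ P * g0 := mul_le_mul_of_nonneg_left h9 hP.le

/-- job LO-SC -/
theorem sc (hREP : S_REP) (hHB : S_HB) (hPIG : S_PIG) (hSM : S_SMALL) (hFR : S_FR) (hREG : S_REG)
    (hSZ : S_SZ) : S_SC := by
  classical
  intro K _ _ ι _ _ n k c j g J hint hι hk hkn hMH hex
  obtain ⟨κ, c1, B1, hκ, hc1, hreg⟩ := hREG K ι n k c j g J hex
  obtain ⟨κ', C2, hκ', hC2, hfr⟩ := hFR K ι n k c hint κ hκ
  obtain ⟨c3, hc3, hpig⟩ := hPIG K ι n k c hint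
  obtain ⟨η1, C4, hη1, hC4, hsm⟩ := hSM K (n j + 1) (n j + 1 - k) κ' (1 / 8)
    (by have := hkn j; omega) hκ' (by norm_num)
  obtain ⟨C5, hC5, hsz⟩ := hSZ K ι n k c g
  obtain ⟨C1, hC1, hs1⟩ := s1_le (K := K)
  have hcι : (0 : ℝ) < Fintype.card ι := by
    have : 0 < Fintype.card ι := by omega
    exact_mod_cast this
  set N0 : ℕ := ∑ l, (n l + 1) with hN0
  set ε' : ℝ := c1 / (2 * Fintype.card ι * C1 ^ N0) with hε'
  have hC1p : 0 < C1 := by linarith
  have hε'0 : 0 < ε' := by positivity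
  have hsmall := fun l : ι => hSM K (n l + 1) (n l + 1) 1 ε' (by have := hkn l; omega) one_pos hε'0
  choose ηl Cl hηl hCl hsml using hsmall
  set η : ℝ := min η1 (univ.inf' ⟨j, mem_univ j⟩ ηl) with hη
  have hη0 : 0 < η := lt_min hη1 ((lt_inf'_iff _).mpr fun l _ => hηl l)
  have hηη1 : η ≤ η1 := min_le_left _ _
  have hηηl : ∀ l, η ≤ ηl l := fun l => (min_le_right _ _).trans (inf'_le _ (mem_univ l))
  set T : ℝ := ((3 / η) ^ dg K) ^ Fintype.card ι with hT
  have hT0 : 0 < T := by positivity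
  set C6 : ℝ := max 1 (8 * (C5 + 1) / c3) with hC6
  refine ⟨η, c1 * c3 / 4 / T, max (C4 * (C2 : ℝ) ^ 2) C6, 2 * k, B1 + ∑ l, ⌈Cl l⌉₊, hη0,
    by positivity, ?_⟩
  intro b hbB hb1 hbj
  have hbB1 : ∀ l, B1 ≤ b l := fun l => (Nat.le_add_right _ _).trans (hbB l)
  have hbCl : ∀ l, Cl l ≤ b l := by
    intro l
    have h1 : ⌈Cl l⌉₊ ≤ ∑ l, ⌈Cl l⌉₊ :=
      single_le_sum (f := fun l => ⌈Cl l⌉₊) (fun _ _ => Nat.zero_le _) (mem_univ l)
    have h2 : ⌈Cl l⌉₊ ≤ b l := h1.trans ((Nat.le_add_left _ _).trans (hbB l))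
    exact (Nat.le_ceil _).trans (by exact_mod_cast h2)
  have hbr : ∀ l, (1 : ℝ) ≤ b l := fun l => by exact_mod_cast hb1 l
  have hb0 : ∀ l, (0 : ℝ) < b l := fun l => by linarith [hbr l]
  set P : ℝ := ∏ l ∈ univ.erase j, (b l : ℝ) with hP
  have hP1 : 1 ≤ P := by
    rw [hP]
    have h1 : ∏ l ∈ univ.erase j, (1 : ℝ) ≤ ∏ l ∈ univ.erase j, (b l : ℝ) :=
      prod_le_prod (fun _ _ => zero_le_one) fun l _ => hbr l
    rwa [prod_const_one] at h1
  have hP0 : 0 < P := by linarith
  have hregb := hreg b hbB1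
  set R := (Fintype.piFinset fun l => if l = j then {0} else bx K (n l + 1) (b l)).filter
    (fun x : Vs K n => (∀ φ : K →+* ℂ, κ * P ^ k ≤ ‖φ (mnr c x j J)‖) ∧
      ∃ y ∈ VV c x j, pv K g (update x j y) ≠ 0) with hR
  have hRx : ∀ x ∈ R, x j = 0 ∧ (∀ l, l ≠ j → x l ∈ bx K (n l + 1) (b l)) ∧
      (∀ φ : K →+* ℂ, κ * P ^ k ≤ ‖φ (mnr c x j J)‖) ∧
      ∃ y ∈ VV c x j, pv K g (update x j y) ≠ 0 := by
    intro x hx
    rw [hR, mem_filter, Fintype.mem_piFinset] at hx
    refine ⟨?_, fun l hl => ?_, hx.2.1, hx.2.2⟩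
    · have h1 := hx.1 j
      rw [if_pos rfl, mem_singleton] at h1
      exact h1
    · have h1 := hx.1 l
      rw [if_neg hl] at h1
      exact h1
  have hRm : ∀ x ∈ R, mnr c x j J ≠ 0 := by
    intro x hx h
    obtain ⟨φ⟩ : Nonempty (K →+* ℂ) := inferInstance
    have h1 := (hRx x hx).2.2.1 φ
    rw [h, map_zero, norm_zero] at h1
    have h2 : 0 < κ * P ^ k := mul_pos hκ (pow_pos hP0 _)
    linarith
  have hRne : ∀ x ∈ R, ∀ l, l ≠ j → x l ≠ 0 := fun x hx l hl =>
    ne_zero_of_mnr hk c x j J (hRm x hx) l hl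
  -- the good vectors in the fibres
  set Good : Vs K n → Finset (Fin (n j + 1) → K) := fun x =>
    (bx K (n j + 1) (b j)).filter fun y => y ∈ VV c x j ∧ y ≠ 0 ∧
      (η * b j) ^ dg K ≤ Height.mulHeight y ∧ pv K g (update x j y) ≠ 0 with hGood
  have hkj := hkn j
  have hexp : dg K * (n j + 1 - k) = dg K * (n j - k) + dg K := by
    have h1 : n j + 1 - k = (n j - k) + 1 := by omega
    rw [h1]
    ring
  have hgood : ∀ x ∈ R, c3 / 2 * (b j : ℝ) ^ (dg K * (n j + 1 - k)) ≤
      P ^ (dg K * k) * ((Good x).card : ℝ) := by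
    intro x hx
    obtain ⟨hxj, hxbx, hxφ, hxy⟩ := hRx x hx
    have hfrx := hfr j J b x hb1 hxbx hxφ
    set W : ℕ := C2 * (∏ l ∈ univ.erase j, b l) ^ k with hW
    have hWr : (W : ℝ) = C2 * P ^ k := by
      rw [hW, hP]
      push_cast
      rfl
    have hW1 : 1 ≤ W := by
      refine Nat.one_le_iff_ne_zero.mpr (Nat.mul_ne_zero (by omega) (pow_ne_zero _ ?_))
      exact prod_ne_zero_iff.mpr fun l _ => by
        have := hb1 l
        omega
    have hWb : C4 * (W : ℝ) ^ 2 ≤ b j := by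
      calc C4 * (W : ℝ) ^ 2 = (C4 * (C2 : ℝ) ^ 2) * P ^ (2 * k) := by
            rw [hWr, mul_pow, ← pow_mul, mul_comm k 2]
            ring
        _ ≤ max (C4 * (C2 : ℝ) ^ 2) C6 * P ^ (2 * k) :=
            mul_le_mul_of_nonneg_right (le_max_left _ _) (by positivity)
        _ ≤ b j := hbj
    have h3 := hsm (VV c x j) W (b j) hW1 hfrx hWb
    have h1 := hpig j b x (by omega) hb1 hxbx
    have h4 := hsz j J x (by omega) (hRm x hx) hxy (b j) (hb1 j)
    have h5 : C6 * P ^ (dg K * k) ≤ (b j : ℝ) ^ dg K := by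
      have h6 : C6 * P ^ k ≤ b j := by
        calc C6 * P ^ k ≤ max (C4 * (C2 : ℝ) ^ 2) C6 * P ^ (2 * k) := by
              refine mul_le_mul (le_max_right _ _) (pow_le_pow_right₀ hP1 (by omega))
                (by positivity) (le_trans ?_ (le_max_right _ _))
              exact le_trans zero_le_one (le_max_left _ _)
          _ ≤ b j := hbj
      have hC61 : 1 ≤ C6 := le_max_left _ _
      calc C6 * P ^ (dg K * k) ≤ C6 ^ dg K * P ^ (dg K * k) := by
            refine mul_le_mul_of_nonneg_right ?_ (by positivity)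
            exact le_self_pow₀ hC61 (Nat.pos_iff_ne_zero.mp dg_pos)
        _ = (C6 * P ^ k) ^ dg K := by rw [mul_pow, ← pow_mul, mul_comm k]
        _ ≤ (b j : ℝ) ^ dg K := pow_le_pow_left₀ (by positivity) h6 _
    rw [hexp, pow_add] at h1 ⊢
    have hbe : (1 : ℝ) ≤ (b j : ℝ) ^ (dg K * (n j - k)) := one_le_pow₀ (hbr j)
    refine good_card (P := P ^ (dg K * k)) (by positivity) hbe hc3 hC5 h1 ?_ h3 h4 h5
      (le_max_right _ _)
    -- the decomposition
    have hsub : ((bx K (n j + 1) (b j)).filter fun y => y ∈ VV c x j) ⊆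
        Good x ∪ ((bx K (n j + 1) (b j)).filter fun y => y ∈ VV c x j ∧ y ≠ 0 ∧
          Height.mulHeight y < (η1 * b j) ^ dg K) ∪
        ((bx K (n j + 1) (b j)).filter fun y => y ∈ VV c x j ∧ pv K g (update x j y) = 0) ∪
        {0} := by
      intro y hy
      rw [mem_filter] at hy
      rw [mem_union, mem_union, mem_union, mem_singleton]
      by_cases hy0 : y = 0
      · exact Or.inr hy0
      · left
        by_cases hyg : pv K g (update x j y) = 0
        · right
          rw [mem_filter]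
          exact ⟨hy.1, hy.2, hyg⟩
        · left
          by_cases hyh : Height.mulHeight y < (η1 * b j) ^ dg K
          · right
            rw [mem_filter]
            exact ⟨hy.1, hy.2, hy0, hyh⟩
          · left
            rw [hGood]
            dsimp only
            rw [mem_filter]
            refine ⟨hy.1, hy.2, hy0, ?_, hyg⟩
            refine le_trans ?_ (not_lt.mp hyh)
            have h6 : η * b j ≤ η1 * b j := mul_le_mul_of_nonneg_right hηη1 (hb0 j).le
            exact pow_le_pow_left₀ (mul_nonneg hη0.le (hb0 j).le) h6 _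
    have hc := card_le_card hsub
    have hc2 := hc.trans ((card_union_le _ _).trans (Nat.add_le_add_right
      ((card_union_le _ _).trans (Nat.add_le_add_right (card_union_le _ _) _)) _))
    rw [card_singleton] at hc2
    unfold nu
    exact_mod_cast hc2
  -- the families without vectors of small height
  set Pi1 : ℝ := ∏ l ∈ univ.erase j, (b l : ℝ) ^ (dg K * (n l + 1)) with hPi1
  have hPi10 : 0 < Pi1 := prod_pos fun l _ => pow_pos (hb0 l) _
  set R' := R.filter (fun x => ∀ l, l ≠ j → (η * b l) ^ dg K ≤ Height.mulHeight (x l)) with hR'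
  set Sm : (l : ι) → Finset (Fin (n l + 1) → K) := fun l =>
    (bx K (n l + 1) (b l)).filter fun x => x ∈ (⊤ : Submodule K (Fin (n l + 1) → K)) ∧ x ≠ 0 ∧
      Height.mulHeight x < (ηl l * b l) ^ dg K with hSm
  have hSmc : ∀ l, ((Sm l).card : ℝ) ≤ ε' * ((bx K (n l + 1) (b l)).card : ℝ) := by
    intro l
    have h1 := hsml l ⊤ 1 (b l) le_rfl (frame_top K (n l + 1)) (by
      rw [Nat.cast_one, one_pow, mul_one]
      exact hbCl l)
    have h2 : nu K (n l + 1) ⊤ (b l) = (bx K (n l + 1) (b l)).card := by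
      unfold nu
      congr 1
      exact filter_true_of_mem fun _ _ => Submodule.mem_top
    rw [h2] at h1
    exact h1
  have hbxp : ∏ l ∈ univ.erase j, ((bx K (n l + 1) (b l)).card : ℝ) ≤ C1 ^ N0 * Pi1 := by
    calc ∏ l ∈ univ.erase j, ((bx K (n l + 1) (b l)).card : ℝ)
        ≤ ∏ l ∈ univ.erase j, (C1 ^ (n l + 1) * (b l : ℝ) ^ (dg K * (n l + 1))) := by
          refine prod_le_prod (fun _ _ => Nat.cast_nonneg _) fun l _ => ?_
          rw [card_bx]
          push_cast
          calc ((s1 K (b l)).card : ℝ) ^ (n l + 1) ≤ (C1 * (b l : ℝ) ^ dg K) ^ (n l + 1) :=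
                pow_le_pow_left₀ (Nat.cast_nonneg _) (hs1 _ (hb1 l)) _
            _ = _ := by rw [mul_pow, ← pow_mul]
      _ = C1 ^ (∑ l ∈ univ.erase j, (n l + 1)) * Pi1 := by
          rw [prod_mul_distrib, prod_pow_eq_pow_sum]
      _ ≤ C1 ^ N0 * Pi1 := by
          refine mul_le_mul_of_nonneg_right (pow_le_pow_right₀ hC1 ?_) hPi10.le
          exact sum_le_sum_of_subset (erase_subset _ _)
  set Bad : ι → Finset (Vs K n) := fun l =>
    R.filter fun x => Height.mulHeight (x l) < (η * b l) ^ dg K with hBad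
  have hBadc : ∀ l ∈ univ.erase j, ((Bad l).card : ℝ) ≤ ε' * (C1 ^ N0 * Pi1) := by
    intro l hl
    have hlj := ne_of_mem_erase hl
    set Fl : (l' : ι) → Finset (Fin (n l' + 1) → K) := fun l' =>
      if l' = j then {0} else if l' = l then Sm l' else bx K (n l' + 1) (b l') with hFl
    have h1 : Bad l ⊆ Fintype.piFinset Fl := by
      intro x hx
      rw [hBad] at hx
      dsimp only at hx
      rw [mem_filter] at hx
      obtain ⟨hxj, hxbx, -⟩ := hRx x hx.1
      rw [Fintype.mem_piFinset]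
      intro l'
      rw [hFl]
      dsimp only
      by_cases h2 : l' = j
      · subst h2
        rw [if_pos rfl, hxj, mem_singleton]
      · rw [if_neg h2]
        by_cases h3 : l' = l
        · subst h3
          rw [if_pos rfl, hSm]
          dsimp only
          rw [mem_filter]
          refine ⟨hxbx l' h2, Submodule.mem_top, hRne x hx.1 l' h2, ?_⟩
          refine lt_of_lt_of_le hx.2 ?_
          exact pow_le_pow_left₀ (mul_nonneg hη0.le (hb0 l').le)
            (mul_le_mul_of_nonneg_right (hηηl l') (hb0 l').le) _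
        · rw [if_neg h3]
          exact hxbx l' h2
    have h2 : ((Bad l).card : ℝ) ≤ ∏ l', ((Fl l').card : ℝ) := by
      have h3 := card_le_card h1
      rw [Fintype.card_piFinset] at h3
      exact_mod_cast h3
    have h3 : ∏ l', ((Fl l').card : ℝ) = ((Sm l).card : ℝ) *
        ∏ l' ∈ (univ.erase j).erase l, ((bx K (n l' + 1) (b l')).card : ℝ) := by
      rw [← mul_prod_erase univ _ (mem_univ j), ← mul_prod_erase (univ.erase j) _ hl]
      have h4 : Fl j = {0} := by rw [hFl]; dsimp only; rw [if_pos rfl]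
      have h5 : Fl l = Sm l := by rw [hFl]; dsimp only; rw [if_neg hlj, if_pos rfl]
      rw [h4, h5, card_singleton, Nat.cast_one, one_mul]
      congr 1
      refine prod_congr rfl fun l' hl' => ?_
      rw [mem_erase, mem_erase] at hl'
      have h6 : Fl l' = bx K (n l' + 1) (b l') := by
        rw [hFl]
        dsimp only
        rw [if_neg hl'.2.1, if_neg hl'.1]
      rw [h6]
    calc ((Bad l).card : ℝ) ≤ ((Sm l).card : ℝ) *
          ∏ l' ∈ (univ.erase j).erase l, ((bx K (n l' + 1) (b l')).card : ℝ) := by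
            rw [← h3]
            exact h2
      _ ≤ (ε' * ((bx K (n l + 1) (b l)).card : ℝ)) *
          ∏ l' ∈ (univ.erase j).erase l, ((bx K (n l' + 1) (b l')).card : ℝ) :=
          mul_le_mul_of_nonneg_right (hSmc l) (prod_nonneg fun _ _ => Nat.cast_nonneg _)
      _ = ε' * ∏ l' ∈ univ.erase j, ((bx K (n l' + 1) (b l')).card : ℝ) := by
          rw [mul_assoc, mul_prod_erase (univ.erase j)
            (fun l' => ((bx K (n l' + 1) (b l')).card : ℝ)) hl]
      _ ≤ ε' * (C1 ^ N0 * Pi1) := mul_le_mul_of_nonneg_left hbxp hε'0.le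
  have hR'c : c1 / 2 * Pi1 ≤ (R'.card : ℝ) := by
    have h1 : R ⊆ R' ∪ (univ.erase j).biUnion Bad := by
      intro x hx
      rw [mem_union, mem_biUnion]
      by_cases h2 : ∀ l, l ≠ j → (η * b l) ^ dg K ≤ Height.mulHeight (x l)
      · left
        rw [hR', mem_filter]
        exact ⟨hx, h2⟩
      · right
        push Not at h2
        obtain ⟨l, hl, h3⟩ := h2
        refine ⟨l, mem_erase.mpr ⟨hl, mem_univ l⟩, ?_⟩
        rw [hBad]
        dsimp only
        rw [mem_filter]
        exact ⟨hx, h3⟩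
    have h2 : R.card ≤ R'.card + ∑ l ∈ univ.erase j, (Bad l).card :=
      (card_le_card h1).trans ((card_union_le _ _).trans (Nat.add_le_add_left card_biUnion_le _))
    have h3 : (R.card : ℝ) ≤ (R'.card : ℝ) + ∑ l ∈ univ.erase j, ((Bad l).card : ℝ) := by
      exact_mod_cast h2
    have h4 : ∑ l ∈ univ.erase j, ((Bad l).card : ℝ) ≤ c1 / 2 * Pi1 := by
      calc ∑ l ∈ univ.erase j, ((Bad l).card : ℝ)
          ≤ ∑ _l ∈ univ.erase j, ε' * (C1 ^ N0 * Pi1) := sum_le_sum hBadc
        _ = ((univ.erase j).card : ℝ) * (ε' * (C1 ^ N0 * Pi1)) := by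
            rw [sum_const, nsmul_eq_mul]
        _ ≤ (Fintype.card ι : ℝ) * (ε' * (C1 ^ N0 * Pi1)) := by
            refine mul_le_mul_of_nonneg_right ?_ (by positivity)
            exact_mod_cast card_le_univ _
        _ = c1 / 2 * Pi1 := by
            rw [hε']
            have h5 : C1 ^ N0 ≠ 0 := pow_ne_zero _ hC1p.ne'
            field_simp
    have h5 : c1 * Pi1 ≤ (R.card : ℝ) := hregb
    linarith
  -- the tuples
  set Q := (R'.sigma Good).image (fun p => update p.1 j p.2) with hQ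
  have hQc : (Q.card : ℝ) = ∑ x ∈ R', ((Good x).card : ℝ) := by
    rw [hQ, card_image_of_injOn, card_sigma]
    · push_cast
      rfl
    · rintro ⟨x, y⟩ hp ⟨x', y'⟩ hp' h
      rw [mem_coe, mem_sigma] at hp hp'
      have h1 : update x j y = update x' j y' := h
      have h2 : y = y' := by
        have h3 := congrFun h1 j
        rwa [update_self, update_self] at h3
      have h3 : x = x' := by
        funext l
        by_cases hl : l = j
        · rw [hl, (hRx x (mem_filter.mp hp.1).1).1, (hRx x' (mem_filter.mp hp'.1).1).1]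
        · have h4 := congrFun h1 l
          rwa [update_of_ne hl, update_of_ne hl] at h4
      subst h2 h3
      rfl
  have hQz : ∀ z ∈ Q, (∀ t, ev K (c t) z = 0) ∧ pv K g z ≠ 0 ∧ ∀ l, z l ∈ bx K (n l + 1) (b l) ∧
      z l ≠ 0 ∧ (η * b l) ^ dg K ≤ Height.mulHeight (z l) := by
    intro z hz
    rw [hQ, mem_image] at hz
    obtain ⟨⟨x, y⟩, hp, rfl⟩ := hz
    rw [mem_sigma] at hp
    obtain ⟨hx, hy⟩ := hp
    dsimp only at hx hy ⊢
    rw [hR', mem_filter] at hx
    rw [hGood] at hy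
    dsimp only at hy
    rw [mem_filter] at hy
    obtain ⟨hy1, hy2, hy3, hy4, hy5⟩ := hy
    refine ⟨fun t => ?_, hy5, fun l => ?_⟩
    · rw [ev_eq, (mem_VV c x j y).mp hy2]
      rfl
    · by_cases hl : l = j
      · subst hl
        rw [update_self]
        exact ⟨hy1, hy3, hy4⟩
      · rw [update_of_ne hl]
        exact ⟨(hRx x hx.1).2.1 l hl, hRne x hx.1 l hl, hx.2 l hl⟩
  obtain ⟨S, hS1, hS2⟩ := pts_of_tuples hREP K ι n b η hη0 hb1 Q fun z hz => (hQz z hz).2.2
  refine ⟨S, ?_, ?_⟩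
  · intro x hx
    obtain ⟨z, hz, a, ha0, ha, hh⟩ := hS1 x hx
    obtain ⟨hz1, hz2, hz3⟩ := hQz z hz
    obtain ⟨δ, hδ⟩ := hMH
    refine ⟨fun t => ?_, ?_, fun l => ⟨?_, ?_⟩⟩
    · rw [ha, ev_smul, hz1, mul_zero]
    · rw [ha, pv_smul hδ]
      exact mul_ne_zero (prod_ne_zero_iff.mpr fun i _ => pow_ne_zero _ (ha0 i)) hz2
    · rw [hh l]
      exact (hz3 l).2.2
    · rw [hh l]
      exact hHB K (n l + 1) (z l) (hz3 l).2.1 (b l) (hz3 l).1
  · set Pi2 : ℝ := ∏ l ∈ univ.erase j, (b l : ℝ) ^ (dg K * (n l + 1 - k)) with hPi2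
    have h1 : Pi1 = Pi2 * P ^ (dg K * k) := by
      rw [hPi1, hPi2, hP, ← prod_pow, ← prod_mul_distrib]
      refine prod_congr rfl fun l _ => ?_
      rw [← pow_add, ← Nat.mul_add]
      congr 2
      have := hkn l
      omega
    have h2 : ∏ l, (b l : ℝ) ^ (dg K * (n l + 1 - k)) =
        (b j : ℝ) ^ (dg K * (n j + 1 - k)) * Pi2 := by
      rw [hPi2, mul_prod_erase univ (fun l => (b l : ℝ) ^ (dg K * (n l + 1 - k))) (mem_univ j)]
    have hPk : 0 < P ^ (dg K * k) := pow_pos hP0 _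
    have h3 : c1 * c3 / 4 * ((b j : ℝ) ^ (dg K * (n j + 1 - k)) * Pi2) * P ^ (dg K * k) ≤
        (Q.card : ℝ) * P ^ (dg K * k) := by
      calc c1 * c3 / 4 * ((b j : ℝ) ^ (dg K * (n j + 1 - k)) * Pi2) * P ^ (dg K * k)
          = (c1 / 2 * Pi1) * (c3 / 2 * (b j : ℝ) ^ (dg K * (n j + 1 - k))) := by
            rw [h1]
            ring
        _ ≤ (R'.card : ℝ) * (c3 / 2 * (b j : ℝ) ^ (dg K * (n j + 1 - k))) :=
            mul_le_mul_of_nonneg_right hR'c (by positivity)
        _ = ∑ _x ∈ R', c3 / 2 * (b j : ℝ) ^ (dg K * (n j + 1 - k)) := by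
            rw [sum_const, nsmul_eq_mul]
        _ ≤ ∑ x ∈ R', P ^ (dg K * k) * ((Good x).card : ℝ) :=
            sum_le_sum fun x hx => hgood x (mem_filter.mp hx).1
        _ = (Q.card : ℝ) * P ^ (dg K * k) := by
            rw [hQc, ← mul_sum, mul_comm]
    have h4 := le_of_mul_le_mul_right h3 hPk
    rw [h2, div_mul_eq_mul_div, div_le_iff₀ hT0]
    calc c1 * c3 / 4 * ((b j : ℝ) ^ (dg K * (n j + 1 - k)) * Pi2) ≤ (Q.card : ℝ) := h4
      _ ≤ T * (S.card : ℝ) := hS2
      _ = (S.card : ℝ) * T := mul_comm _ _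

end Pool.Agent.Q162.LO
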