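import Mathlib
import Pool.Agent.Q162.LO.Base

/-!
Project LO of helper35, job LO-SZ: few points in a fibre on a hypersurface
-/

set_option autoImplicit false

namespace Pool.Agent.Q162.LO

open Finset Function MvPolynomial
open Pool.Agent.Q35.MM (bx dg Pts S1 S1_finite mem_bx)
open Pool.Agent.Q35.SM (Cof Vs Var Pol ev pv MH)
open Pool.Agent.Q35.LO (lf mnr VV)
open Pool.Agent.Q298.SM (ev_lin ev_map pv_map upd_map upd_single)

theorem J_inj {K : Type} [Field K] {ι : Type} [Fintype ι] [DecidableEq ι] {n : ι → ℕ} {k : ℕ}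
    (c : Fin k → Cof K n) (x : Vs K n) (j : ι) (J : Fin k → Fin (n j + 1))
    (h : mnr c x j J ≠ 0) : Injective J := by
  intro t t' htt
  by_contra hne
  apply h
  unfold mnr
  refine Matrix.det_zero_of_column_eq hne fun s => ?_
  simp [htt]

theorem Cm_extend {K : Type} [Field K] {ι : Type} [Fintype ι] [DecidableEq ι] {n : ι → ℕ} {k : ℕ}
    (c : Fin k → Cof K n) (x : Vs K n) (j : ι) (J : Fin k → Fin (n j + 1))
    (h : mnr c x j J ≠ 0) (y : Fin (n j + 1) → K) (hy : y ∈ VV c x j) (u : Fin k → K) :
    (Cm c x j J).mulVec (extend J u y) = mnr c x j J • y := by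
  have hJ := J_inj c x j J h
  have h1 : extend J u y = y + (Pm K J).mulVec (fun t => u t - y (J t)) := by
    funext a
    rw [Pi.add_apply]
    show _ = y a + ∑ t, (if J t = a then (1 : K) else 0) * (u t - y (J t))
    by_cases ha : ∃ t, J t = a
    · obtain ⟨t, rfl⟩ := ha
      rw [hJ.extend_apply]
      have h2 : ∀ t', (if J t' = J t then (1 : K) else 0) * (u t' - y (J t')) =
          if t' = t then (u t - y (J t)) else 0 := by
        intro t'
        by_cases h3 : t' = t
        · subst h3
          simp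
        · have h4 : J t' ≠ J t := fun h5 => h3 (hJ h5)
          simp [h3, h4]
      simp only [h2, sum_ite_eq', mem_univ, if_true]
      ring
    · rw [extend_apply' _ _ _ ha]
      have h2 : ∀ t', (if J t' = a then (1 : K) else 0) * (u t' - y (J t')) = 0 := by
        intro t'
        rw [if_neg fun h3 => ha ⟨t', h3⟩, zero_mul]
      simp only [h2, sum_const_zero, add_zero]
  rw [h1, Matrix.mulVec_add, Matrix.mulVec_mulVec, Cm_mul_Pm, Matrix.zero_mulVec, add_zero,
    Cm_mulVec c x j J y ((mem_VV c x j y).mp hy)]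

/-- job LO-SZ -/
theorem sz : Pool.Agent.Q35.LO.S_SZ := by
  classical
  intro K _ _ ι _ _ n k c g
  obtain ⟨C1, hC1, hs⟩ := s1_le (K := K)
  have hC10 : 0 ≤ C1 := by linarith
  refine ⟨g.totalDegree * C1 ^ (∑ i, n i), by positivity, ?_⟩
  intro j J x hk hD hex B hB
  obtain ⟨y0, hy0, hg0⟩ := hex
  set Δ := mnr c x j J with hΔ
  set lin : Fin (n j + 1) → MvPolynomial (Fin (n j + 1)) K :=
    fun a => ∑ b, C (Δ⁻¹ * Cm c x j J a b) * X b with hlin
  set w : Vs (MvPolynomial (Fin (n j + 1)) K) n := update (fun l a => C (x l a)) j lin with hw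
  set p : MvPolynomial (Fin (n j + 1)) K := pv _ g w with hp
  have heval : ∀ z : Fin (n j + 1) → K,
      eval z p = pv K g (update x j (Δ⁻¹ • (Cm c x j J).mulVec z)) := by
    intro z
    have h1 := pv_map (aeval z : MvPolynomial (Fin (n j + 1)) K →ₐ[K] K) g w
    have hav : ∀ q : MvPolynomial (Fin (n j + 1)) K,
        (aeval z : MvPolynomial (Fin (n j + 1)) K →ₐ[K] K) q = eval z q := fun q =>
      DFunLike.congr_fun (coe_aeval_eq_eval z) q
    rw [hav] at h1
    simp only [hav] at h1
    rw [hp, ← h1, hw, upd_map (fun q : MvPolynomial (Fin (n j + 1)) K => eval z q)]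
    congr 1
    congr 1
    · funext l a
      simp
    · funext a
      simp only [hlin, map_sum, map_mul, eval_C, eval_X, Pi.smul_apply, smul_eq_mul,
        Matrix.mulVec, dotProduct, mul_sum]
      refine sum_congr rfl fun b _ => ?_
      ring
  have hp0 : p ≠ 0 := by
    intro h
    have h1 := heval y0
    rw [h, map_zero, Cm_mulVec c x j J y0 ((mem_VV c x j y0).mp hy0), smul_smul,
      inv_mul_cancel₀ hD, one_smul] at h1
    exact hg0 h1.symm
  have hdeg : p.totalDegree ≤ g.totalDegree := by
    refine totalDegree_subst (fun v : Var n => w v.1 v.2) (fun v => ?_) g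
    obtain ⟨l, a⟩ := v
    by_cases hl : l = j
    · subst hl
      rw [hw]
      simp only [update_self, hlin]
      refine totalDegree_finsetSum_le fun b _ => ?_
      refine (totalDegree_mul _ _).trans ?_
      rw [totalDegree_C, totalDegree_X]
    · rw [hw]
      simp only [update_of_ne hl, totalDegree_C]
      exact Nat.zero_le _
  set s := (s1 K B).card with hsdef
  have hs1 : 1 ≤ s := s1_pos B
  set T := (bx K (n j + 1) B).filter fun y => y ∈ VV c x j ∧ pv K g (update x j y) = 0 with hT
  set Z := (Fintype.piFinset fun _ : Fin (n j + 1) => s1 K B).filter fun z => eval z p = 0 with hZ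
  have hJ := J_inj c x j J hD
  have hTZ : T.card * s ^ k ≤ Z.card := by
    have h1 : (T ×ˢ (Fintype.piFinset fun _ : Fin k => s1 K B)).card = T.card * s ^ k := by
      rw [card_product, Fintype.card_piFinset_const]
    rw [← h1]
    refine card_le_card_of_injOn (fun q => extend J q.2 q.1) ?_ ?_
    · rintro ⟨y, u⟩ hq
      rw [mem_coe, mem_product, hT, mem_filter, Fintype.mem_piFinset] at hq
      obtain ⟨⟨hy1, hy2, hy3⟩, hu⟩ := hq
      rw [mem_coe, hZ, mem_filter, Fintype.mem_piFinset]
      refine ⟨fun a => ?_, ?_⟩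
      · show extend J u y a ∈ s1 K B
        by_cases ha : ∃ t, J t = a
        · obtain ⟨t, rfl⟩ := ha
          rw [hJ.extend_apply]
          exact hu t
        · rw [extend_apply' _ _ _ ha]
          exact mem_s1.mpr (mem_bx.mp hy1 a)
      · show eval (extend J u y) p = 0
        rw [heval, Cm_extend c x j J hD y hy2 u, smul_smul, inv_mul_cancel₀ hD, one_smul]
        exact hy3
    · rintro ⟨y, u⟩ hq ⟨y', u'⟩ hq' h
      rw [mem_coe, mem_product, hT, mem_filter] at hq hq'
      have h' : extend J u y = extend J u' y' := h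
      have h2 : y = y' := by
        have h3 := Cm_extend c x j J hD y hq.1.2.1 u
        have h4 := Cm_extend c x j J hD y' hq'.1.2.1 u'
        rw [h', h4] at h3
        exact (smul_right_injective _ hD h3).symm
      have h3 : u = u' := by
        funext t
        have h4 := congrFun h' (J t)
        rw [hJ.extend_apply, hJ.extend_apply] at h4
        exact h4
      rw [h2, h3]
  have hZ2 : Z.card * s ≤ p.totalDegree * s ^ (n j + 1) := by
    have h1 := sz_gen p hp0 (fun _ => s1 K B) s (fun _ => le_rfl)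
    rw [prod_const, card_univ, Fintype.card_fin] at h1
    exact h1
  have hkey : T.card ≤ g.totalDegree * s ^ (n j - k) := by
    have h1 : T.card * s ^ (k + 1) ≤ (g.totalDegree * s ^ (n j - k)) * s ^ (k + 1) := by
      calc T.card * s ^ (k + 1) = (T.card * s ^ k) * s := by ring
        _ ≤ Z.card * s := Nat.mul_le_mul_right _ hTZ
        _ ≤ p.totalDegree * s ^ (n j + 1) := hZ2
        _ ≤ g.totalDegree * s ^ (n j + 1) := Nat.mul_le_mul_right _ hdeg
        _ = (g.totalDegree * s ^ (n j - k)) * s ^ (k + 1) := by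
          rw [mul_assoc, ← pow_add]
          congr 2
          omega
    exact Nat.le_of_mul_le_mul_right h1 (pow_pos hs1 _)
  have h2 : (s : ℝ) ^ (n j - k) ≤ C1 ^ (∑ i, n i) * (B : ℝ) ^ (dg K * (n j - k)) := by
    calc (s : ℝ) ^ (n j - k) ≤ (C1 * (B : ℝ) ^ dg K) ^ (n j - k) :=
          pow_le_pow_left₀ (Nat.cast_nonneg _) (hs B hB) _
      _ = C1 ^ (n j - k) * (B : ℝ) ^ (dg K * (n j - k)) := by rw [mul_pow, pow_mul]
      _ ≤ C1 ^ (∑ i, n i) * (B : ℝ) ^ (dg K * (n j - k)) := by
          refine mul_le_mul_of_nonneg_right (pow_le_pow_right₀ hC1 ?_) (by positivity)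
          exact (Nat.sub_le _ _).trans (single_le_sum (fun _ _ => Nat.zero_le _) (mem_univ j))
  calc ((T.card : ℕ) : ℝ) ≤ ((g.totalDegree * s ^ (n j - k) : ℕ) : ℝ) := by exact_mod_cast hkey
    _ = g.totalDegree * (s : ℝ) ^ (n j - k) := by push_cast; rfl
    _ ≤ g.totalDegree * (C1 ^ (∑ i, n i) * (B : ℝ) ^ (dg K * (n j - k))) :=
        mul_le_mul_of_nonneg_left h2 (Nat.cast_nonneg _)
    _ = g.totalDegree * C1 ^ (∑ i, n i) * (B : ℝ) ^ (dg K * (n j - k)) := by ring

end Pool.Agent.Q162.LO
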